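import Pool.Agent.W2helper5.KA.Stm3

/-!
# Project KA part 3, piece POW: powers of the Drinfeld element
-/

set_option autoImplicit false

namespace Pool.Agent.W2helper51.KA3

open TensorProduct Pool.Agent.W2helper5.KA3

section

variable {K H D : Type} [Field K] [Ring H] [HopfAlgebra K H] [Ring D] [Algebra K D] {n : ℕ}
  (e : Module.Basis (Fin n) K H)

theorem dual_exp (f : H →ₗ[K] K) : f = ∑ m, f (e m) • e.coord m := by
  classical
  apply e.ext
  intro i
  simp [LinearMap.sum_apply, Finsupp.single_apply]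

theorem j_exp (Sinv : H →ₗ[K] H) (j : (H →ₗ[K] K) →ₗ[K] D) (f : H →ₗ[K] K) :
    j (f ∘ₗ Sinv) = ∑ m, f (e m) • j (e.coord m ∘ₗ Sinv) := by
  conv_lhs => rw [dual_exp e f]
  have h : (∑ m, f (e m) • e.coord m) ∘ₗ Sinv = ∑ m, f (e m) • (e.coord m ∘ₗ Sinv) := by
    ext x
    simp only [LinearMap.comp_apply, LinearMap.sum_apply, LinearMap.smul_apply]
  rw [h, map_sum]
  refine Finset.sum_congr rfl fun m _ => ?_
  rw [map_smul]

theorem tens_exp (L : H ⊗[K] H →ₗ[K] H) (z : H ⊗[K] H) :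
    L z = ∑ l, ∑ t, (LinearMap.mul' K K (TensorProduct.map (e.coord l) (e.coord t) z)) •
      L (e l ⊗ₜ[K] e t) := by
  induction z using TensorProduct.induction_on with
  | zero => simp
  | tmul x y =>
    conv_lhs => rw [← e.sum_repr x, ← e.sum_repr y]
    rw [TensorProduct.sum_tmul, map_sum]
    refine Finset.sum_congr rfl fun l _ => ?_
    rw [TensorProduct.tmul_sum, map_sum]
    refine Finset.sum_congr rfl fun t _ => ?_
    rw [TensorProduct.smul_tmul_smul, map_smul, TensorProduct.map_tmul, LinearMap.mul'_apply]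
    rfl
  | add x y hx hy =>
    rw [map_add, hx, hy, ← Finset.sum_add_distrib]
    refine Finset.sum_congr rfl fun l _ => ?_
    rw [← Finset.sum_add_distrib]
    refine Finset.sum_congr rfl fun t _ => ?_
    rw [map_add, map_add, add_smul]

end

/-- POW -/
theorem POW : P_POW := by
  intro hA hC K H D _ _ _ _ _ Sinv hS1 hS2 i j hD n e m
  obtain ⟨hA1, hA2⟩ := hA K H Sinv hS1 hS2
  have hcom := hC K H D Sinv hS1 hS2 i j hD n e
  have key : ∀ φ : H →ₗ[K] H, Θ Sinv i j e φ * Θ Sinv i j e LinearMap.id =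
      Θ Sinv i j e (stp K H Sinv φ) := by
    intro φ
    have h1 : Θ Sinv i j e φ * Θ Sinv i j e LinearMap.id =
        ∑ t, ∑ l, j (cv (e.coord l) (e.coord t) ∘ₗ Sinv) *
          i (e l * Sinv (Sinv (φ (e t)))) := by
      have h2 : Θ Sinv i j e φ = ∑ t, j (e.coord t ∘ₗ Sinv) * i (φ (e t)) := rfl
      rw [h2, Finset.sum_mul]
      refine Finset.sum_congr rfl fun t _ => ?_
      rw [mul_assoc, hcom]
      have h3 : Θ Sinv i j e LinearMap.id = ∑ l, j (e.coord l ∘ₗ Sinv) * i (e l) := rfl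
      rw [h3, Finset.sum_mul, Finset.mul_sum]
      refine Finset.sum_congr rfl fun l _ => ?_
      rw [mul_assoc, ← map_mul i, ← mul_assoc, ← hD.j_mul, hA1]
    have h4 : Θ Sinv i j e (stp K H Sinv φ) =
        ∑ s, j (e.coord s ∘ₗ Sinv) * i (stp K H Sinv φ (e s)) := rfl
    have h5 : ∀ s, stp K H Sinv φ (e s) =
        ∑ l, ∑ t, cv (e.coord l) (e.coord t) (e s) • (e l * Sinv (Sinv (φ (e t)))) := by
      intro s
      have h6 := tens_exp e (LinearMap.mul' K H ∘ₗ
        TensorProduct.map LinearMap.id (Sinv ∘ₗ Sinv ∘ₗ φ)) (Coalgebra.comul (R := K) (e s))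
      refine Eq.trans (b := (LinearMap.mul' K H ∘ₗ
        TensorProduct.map LinearMap.id (Sinv ∘ₗ Sinv ∘ₗ φ)) (Coalgebra.comul (R := K) (e s))) rfl ?_
      rw [h6]
      rfl
    rw [h1, h4]
    simp only [h5, j_exp e Sinv j (cv _ _), Finset.sum_mul, smul_mul_assoc, map_sum, map_smul,
      Finset.mul_sum, mul_smul_comm]
    calc _ = ∑ t, ∑ s, ∑ l, (cv (e.coord l) (e.coord t) (e s)) •
          (j (e.coord s ∘ₗ Sinv) * i (e l * Sinv (Sinv (φ (e t))))) :=
          Finset.sum_congr rfl fun t _ => Finset.sum_comm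
      _ = ∑ s, ∑ t, ∑ l, (cv (e.coord l) (e.coord t) (e s)) •
          (j (e.coord s ∘ₗ Sinv) * i (e l * Sinv (Sinv (φ (e t))))) := Finset.sum_comm
      _ = _ := Finset.sum_congr rfl fun s _ => Finset.sum_comm
  induction m with
  | zero =>
    rw [Function.iterate_zero_apply, pow_zero]
    have h1 : Θ Sinv i j e (cun K H) = ∑ t, j (e.coord t ∘ₗ Sinv) * i (cun K H (e t)) := rfl
    rw [h1]
    have h2 : ∀ t, j (e.coord t ∘ₗ Sinv) * i (cun K H (e t)) =
        (Coalgebra.counit (R := K) (e t)) • j (e.coord t ∘ₗ Sinv) := by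
      intro t
      have h3 : cun K H (e t) = algebraMap K H (Coalgebra.counit (R := K) (e t)) := rfl
      rw [h3, AlgHom.commutes, Algebra.algebraMap_eq_smul_one, mul_smul_comm, mul_one]
    rw [Finset.sum_congr rfl fun t _ => h2 t, ← j_exp e Sinv j (Coalgebra.counit (R := K)), hA2,
      hD.j_one]
  | succ m ih =>
    rw [Function.iterate_succ_apply', ← key, ih, pow_succ]

end Pool.Agent.W2helper51.KA3
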